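import Pool.Agent.H71.VK.Stmt

/-!
Correspondences between the orbits of lists lift to embeddings, and to isomorphisms if they
are onto.
-/

set_option autoImplicit false

open Set Pool.Agent.TK

namespace Pool.Agent.H71.VK

variable {C : Type}

/-- a list of pairs which is a position of the game given by `R` -/
def QQ (R : List ℕ → List ℕ → Prop) (p : List (ℕ × ℕ)) : Prop :=
  R (p.map Prod.fst) (p.map Prod.snd)

lemma lift_reindex {α : Type} (k : List α) (f : α → ℕ) (u : α → ℕ) (l : List ℕ)
    (h : ∀ a ∈ k, l[f a]? = some (u a)) : reindex (k.map f) l = k.map u := by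
  induction k with
  | nil => rfl
  | cons a k ih =>
    have ih' := ih (fun x hx => h x (List.mem_cons_of_mem _ hx))
    unfold reindex at ih' ⊢
    rw [List.map_cons, List.filterMap_cons_some (h a List.mem_cons_self), ih', List.map_cons]

lemma lift_sub {T : Set (Fl C)} {M N : St C} {R : List ℕ → List ℕ → Prop} (H : Corr T M N R)
    {p q : List (ℕ × ℕ)} (hp : QQ R p) (hq : ∀ z ∈ q, z ∈ p) : QQ R q := by
  have h1 : ∀ z ∈ q, (p.map Prod.fst)[p.idxOf z]? = some z.1 := by
    intro z hz
    rw [List.getElem?_map, List.getElem?_eq_getElem (List.idxOf_lt_length_of_mem (hq z hz)),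
      List.getElem_idxOf]
    rfl
  have h2 : ∀ z ∈ q, (p.map Prod.snd)[p.idxOf z]? = some z.2 := by
    intro z hz
    rw [List.getElem?_map, List.getElem?_eq_getElem (List.idxOf_lt_length_of_mem (hq z hz)),
      List.getElem_idxOf]
    rfl
  have h3 := H.ri (q.map (fun z => p.idxOf z)) _ _ hp
  rw [lift_reindex q _ Prod.fst _ h1, lift_reindex q _ Prod.snd _ h2] at h3
  exact h3

lemma lift_pair {T : Set (Fl C)} {M : St C} {x y z : ℕ} (h : Rel T M [x, y] [z, z]) : x = y := by
  obtain ⟨n, _, hn⟩ := h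
  simp only [List.map_cons, List.map_nil, List.cons.injEq, and_true] at hn
  exact n.injective (hn.1.trans hn.2.symm)

lemma lift_pat {T : Set (Fl C)} {M N : St C} {R : List ℕ → List ℕ → Prop} (H : Corr T M N R)
    {p : List (ℕ × ℕ)} (hp : QQ R p) {z w : ℕ × ℕ} (hz : z ∈ p) (hw : w ∈ p) :
    z.1 = w.1 ↔ z.2 = w.2 := by
  have h1 : R [z.1, w.1] [z.2, w.2] := lift_sub H hp (q := [z, w]) (by
    intro x hx
    simp only [List.mem_cons, List.not_mem_nil, or_false] at hx
    rcases hx with rfl | rfl <;> assumption)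
  have h2 : R [z.1, z.1] [z.2, z.2] := lift_sub H hp (q := [z, z]) (by
    intro x hx
    simp only [List.mem_cons, List.not_mem_nil, or_false, or_self] at hx
    rcases hx with rfl
    assumption)
  constructor
  · intro h
    rw [← h] at h1
    exact lift_pair (H.uniq _ _ _ h1 h2)
  · intro h
    rw [← h] at h1
    exact lift_pair (H.inj _ _ _ h1 h2)

lemma lift_refl (T : Set (Fl C)) (M : St C) (l : List ℕ) : Rel T M l l :=
  ⟨1, (N0 T M).one_mem, by simp⟩

lemma lift_forth {T : Set (Fl C)} {M N : St C} {R : List ℕ → List ℕ → Prop} (H : Corr T M N R)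
    {p : List (ℕ × ℕ)} (hp : QQ R p) (a : ℕ) : ∃ b, QQ R ((a, b) :: p) := by
  obtain ⟨m', hm'⟩ := H.tot (a :: p.map Prod.fst)
  have hl := H.len _ _ hm'
  match m', hm', hl with
  | [], _, hl => simp at hl
  | b0 :: m0, hm', hl =>
    have hl' : (p.map Prod.fst).length = m0.length := by simpa using hl
    have h1 : QQ R ((a, b0) :: (p.map Prod.fst).zip m0) := by
      unfold QQ
      rw [List.map_cons, List.map_cons, List.map_fst_zip (le_of_eq hl'),
        List.map_snd_zip (le_of_eq hl'.symm)]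
      exact hm'
    have h2 : QQ R ((p.map Prod.fst).zip m0) :=
      lift_sub H h1 (fun z hz => List.mem_cons_of_mem _ hz)
    unfold QQ at h2
    rw [List.map_fst_zip (le_of_eq hl'), List.map_snd_zip (le_of_eq hl'.symm)] at h2
    obtain ⟨n, hn, hmn⟩ := H.uniq _ _ _ h2 hp
    refine ⟨n b0, ?_⟩
    unfold QQ
    rw [List.map_cons, List.map_cons]
    exact H.sat _ _ _ _ hm' (lift_refl T M _) ⟨n, hn, by rw [List.map_cons, hmn]⟩

lemma lift_back {T : Set (Fl C)} {M N : St C} {R : List ℕ → List ℕ → Prop} (H : Corr T M N R)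
    (ho : ∀ m, ∃ l, R l m) {p : List (ℕ × ℕ)} (hp : QQ R p) (b : ℕ) :
    ∃ a, QQ R ((a, b) :: p) := by
  obtain ⟨l', hl'⟩ := ho (b :: p.map Prod.snd)
  have hl := H.len _ _ hl'
  match l', hl', hl with
  | [], _, hl => simp at hl
  | a0 :: l0, hl', hl =>
    have hl2 : l0.length = (p.map Prod.snd).length := by simpa using hl
    have h1 : QQ R ((a0, b) :: l0.zip (p.map Prod.snd)) := by
      unfold QQ
      rw [List.map_cons, List.map_cons, List.map_fst_zip (le_of_eq hl2),
        List.map_snd_zip (le_of_eq hl2.symm)]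
      exact hl'
    have h2 : QQ R (l0.zip (p.map Prod.snd)) :=
      lift_sub H h1 (fun z hz => List.mem_cons_of_mem _ hz)
    unfold QQ at h2
    rw [List.map_fst_zip (le_of_eq hl2), List.map_snd_zip (le_of_eq hl2.symm)] at h2
    obtain ⟨n, hn, hmn⟩ := H.inj _ _ _ h2 hp
    refine ⟨n a0, ?_⟩
    unfold QQ
    rw [List.map_cons, List.map_cons]
    exact H.sat _ _ _ _ hl' ⟨n, hn, by rw [List.map_cons, hmn]⟩ (lift_refl T N _)

/-- the union of a sequence of positions -/
lemma lift_union {T : Set (Fl C)} {M N : St C} {R : List ℕ → List ℕ → Prop} (H : Corr T M N R)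
    {l m : List ℕ} (hlm : l.length = m.length) {F : ℕ → List (ℕ × ℕ)} (hF : ∀ n, QQ R (F n))
    (h0 : F 0 = l.zip m) (hmono : ∀ n z, z ∈ F n → z ∈ F (n + 1)) {g : ℕ → ℕ}
    (hg : ∀ n, (n, g n) ∈ F (n + 1)) :
    Function.Injective g ∧ (∀ k, cval N (k.map g) = cval M k) ∧ l.map g = m ∧
      ∀ k, R k (k.map g) := by
  have hmono' : ∀ {i j : ℕ}, i ≤ j → ∀ z, z ∈ F i → z ∈ F j := by
    intro i j hij
    induction hij with
    | refl => exact fun z hz => hz
    | step _ ih => exact fun z hz => hmono _ z (ih z hz)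
  have hbig : ∀ k : List ℕ, ∃ n, ∀ a ∈ k, (a, g a) ∈ F n := by
    intro k
    refine ⟨k.foldr max 0 + 1, ?_⟩
    intro a ha
    have : a ≤ k.foldr max 0 := by
      clear hmono' hg h0 hF hmono
      induction k with
      | nil => simp at ha
      | cons b k ih =>
        rw [List.foldr_cons]
        rcases List.mem_cons.1 ha with rfl | ha
        · exact le_max_left _ _
        · exact (ih ha).trans (le_max_right _ _)
    exact hmono' (by omega) _ (hg a)
  have hR : ∀ k, R k (k.map g) := by
    intro k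
    obtain ⟨n, hn⟩ := hbig k
    have h1 : QQ R (k.map (fun a => (a, g a))) := lift_sub H (hF n) (by
      intro z hz
      obtain ⟨a, ha, rfl⟩ := List.mem_map.1 hz
      exact hn a ha)
    unfold QQ at h1
    rw [List.map_map, List.map_map] at h1
    have e1 : (Prod.fst ∘ fun a => (a, g a)) = (id : ℕ → ℕ) := rfl
    have e2 : (Prod.snd ∘ fun a => (a, g a)) = g := rfl
    rw [e1, e2, List.map_id] at h1
    exact h1
  refine ⟨?_, fun k => (H.col _ _ (hR k)).symm, ?_, hR⟩
  · intro a b hab
    obtain ⟨n, hn⟩ := hbig [a, b]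
    exact (lift_pat H (hF n) (hn a (by simp)) (hn b (by simp))).2 hab
  · have h2 : ∀ z ∈ l.zip m, z.2 = g z.1 := by
      intro z hz
      obtain ⟨n, hn⟩ := hbig [z.1]
      have h3 : z ∈ F n := hmono' (Nat.zero_le n) z (by rw [h0]; exact hz)
      exact (lift_pat H (hF n) h3 (hn z.1 (by simp))).1 rfl
    calc l.map g = ((l.zip m).map Prod.fst).map g := by
            rw [List.map_fst_zip (le_of_eq hlm)]
      _ = (l.zip m).map Prod.snd := by
            rw [List.map_map]
            exact List.map_congr_left (fun z hz => (h2 z hz).symm)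
      _ = m := List.map_snd_zip (le_of_eq hlm.symm)

lemma lift_start {T : Set (Fl C)} {M N : St C} {R : List ℕ → List ℕ → Prop} (H : Corr T M N R)
    {l m : List ℕ} (h : R l m) : QQ R (l.zip m) := by
  have hl := H.len _ _ h
  unfold QQ
  rw [List.map_fst_zip (le_of_eq hl), List.map_snd_zip (le_of_eq hl.symm)]
  exact h

theorem pf_EMB' : EMB C := by
  intro T M N R H l m hlm
  choose f hf using fun (p : {p // QQ R p}) (a : ℕ) => lift_forth H p.2 a
  let F : ℕ → {p // QQ R p} := fun n => Nat.rec ⟨l.zip m, lift_start H hlm⟩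
    (fun n p => ⟨(n, f p n) :: p.1, hf p n⟩) n
  exact ⟨fun n => f (F n) n, lift_union H (H.len _ _ hlm) (F := fun n => (F n).1)
    (fun n => (F n).2) rfl (fun n z hz => List.mem_cons_of_mem _ hz)
    (fun n => List.mem_cons_self)⟩

theorem pf_EMB {C : Type} (_hRLB : RLB C) : EMB C := pf_EMB'

theorem pf_LIFT' : LIFT C := by
  intro T M N R H ho l m hlm
  choose f hf using fun (p : {p // QQ R p}) (a : ℕ) => lift_forth H p.2 a
  choose e he using fun (p : {p // QQ R p}) (b : ℕ) => lift_back H ho p.2 b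
  let G : {p // QQ R p} → ℕ → {p // QQ R p} := fun p n => ⟨(n, f p n) :: p.1, hf p n⟩
  let F : ℕ → {p // QQ R p} := fun n => Nat.rec ⟨l.zip m, lift_start H hlm⟩
    (fun n p => ⟨(e (G p n) n, n) :: (G p n).1, he (G p n) n⟩) n
  have hmono : ∀ n z, z ∈ (F n).1 → z ∈ (F (n + 1)).1 :=
    fun n z hz => List.mem_cons_of_mem _ (List.mem_cons_of_mem _ hz)
  have hg : ∀ n, (n, f (F n) n) ∈ (F (n + 1)).1 :=
    fun n => List.mem_cons_of_mem _ List.mem_cons_self
  have hg' : ∀ n, (e (G (F n) n) n, n) ∈ (F (n + 1)).1 := fun n => List.mem_cons_self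
  have hmono' : ∀ {i j : ℕ}, i ≤ j → ∀ z, z ∈ (F i).1 → z ∈ (F j).1 := by
    intro i j hij
    induction hij with
    | refl => exact fun z hz => hz
    | step _ ih => exact fun z hz => hmono _ z (ih z hz)
  obtain ⟨_, hc, hm, hR⟩ := lift_union H (H.len _ _ hlm) (F := fun n => (F n).1)
    (fun n => (F n).2) rfl hmono hg
  let h : Equiv.Perm ℕ :=
    { toFun := fun n => f (F n) n
      invFun := fun n => e (G (F n) n) n
      left_inv := fun n => (lift_pat H (F (max (n + 1) (f (F n) n + 1))).2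
        (hmono' (le_max_right _ _) _ (hg' (f (F n) n)))
        (hmono' (le_max_left _ _) _ (hg n))).2 rfl
      right_inv := fun n => (lift_pat H (F (max (n + 1) (e (G (F n) n) n + 1))).2
        (hmono' (le_max_right _ _) _ (hg (e (G (F n) n) n)))
        (hmono' (le_max_left _ _) _ (hg' n))).1 rfl }
  refine ⟨h, ⟨?_, ?_⟩, hm, hR⟩
  · intro u v
    have h1 := congrArg Prod.snd (hc [u, v])
    exact h1.symm
  · intro k
    exact (congrArg Prod.fst (hc k)).symm

theorem pf_LIFT {C : Type} (_hRLB : RLB C) : LIFT C := pf_LIFT'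

end Pool.Agent.H71.VK
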